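import Pool.Agent.Lib_helper30.EvenHomeo.Defs2

/-!
# SHIFT: the new coordinate system of the thinning step
-/

open Set Metric Topology

namespace Pool.Agent.EvenHomeo

open Pool.Agent.MinHomeo (RotChart)

variable {X : Type} [NormedAddCommGroup X] [NormedSpace ℝ X] {Y B : Type} [MetricSpace Y]
  [MetricSpace B]

theorem shift_per {g : ℝ → ℝ} (h : ∀ θ, g (θ + 1) = g θ) (θ : ℝ) (k : ℤ) : g (θ + k) = g θ := by
  have hp : Function.Periodic g 1 := h
  have := (hp.int_mul k) θ
  simpa using this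

namespace Base

variable (b : Base X Y B)

open Classical in
/-- The fibre shift attached to `g : Y × ℝ × ℝ → ℝ`. -/
noncomputable def shiftJ (g : Y → ℝ → ℝ → ℝ) (z : B) : T :=
  if h : ∃ q : Y × ℝ × ℝ, (0 ≤ q.2.1 ∧ q.2.1 < 1) ∧ b.β q = z then
    ((g h.choose.1 h.choose.2.1 h.choose.2.2 : ℝ) : T) else 0

theorem shiftJ_β {g : Y → ℝ → ℝ → ℝ} (hg : ∀ y s θ (k : ℤ), g y s (θ + k) = g y s θ) {s : ℝ}
    (hs : 0 ≤ s) (hs' : s < 1) (y : Y) (θ : ℝ) :
    b.shiftJ g (b.β (y, s, θ)) = ((g y s θ : ℝ) : T) := by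
  have h : ∃ q : Y × ℝ × ℝ, (0 ≤ q.2.1 ∧ q.2.1 < 1) ∧ b.β q = b.β (y, s, θ) :=
    ⟨(y, s, θ), ⟨hs, hs'⟩, rfl⟩
  unfold shiftJ
  rw [dif_pos h]
  obtain ⟨⟨h1, h2⟩, h3⟩ := h.choose_spec
  generalize h.choose = q at h1 h2 h3 ⊢
  obtain ⟨y', s', θ'⟩ := q
  simp only at h1 h2 h3 ⊢
  obtain ⟨rfl, ⟨k, hk⟩, ⟨l, hl⟩⟩ := (b.β_eq _ _ _ _ _ _).1 h3
  have hk0 : k = 0 := by
    have h4 : -1 < k := by
      have : (-1 : ℝ) < k := by linarith
      exact_mod_cast this
    have h5 : k < 1 := by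
      have : (k : ℝ) < 1 := by linarith
      exact_mod_cast this
    omega
  subst hk0
  have hss : s = s' := by simpa using hk
  subst hss
  rw [hl, hg]

theorem shiftJ_off (g : Y → ℝ → ℝ → ℝ) {z : B} (hz : z ∉ range b.β) : b.shiftJ g z = 0 := by
  unfold shiftJ
  rw [dif_neg]
  rintro ⟨q, -, rfl⟩
  exact hz (mem_range_self q)

/-- the part of the base with `c ≤ ρ` is closed, for `c ≥ -1/20` -/
theorem shift_closed {c : ℝ} (hc : -(1 / 20) ≤ c) : IsClosed (b.β '' {q | c ≤ b.ρ q.1}) := by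
  have h1 : IsCompact {y | c ≤ b.ρ y} := by
    refine b.ρ_cpt.of_isClosed_subset (isClosed_le continuous_const b.ρ_cont) ?_
    intro y hy
    exact hc.trans hy
  have h2 : b.β '' {q | c ≤ b.ρ q.1} =
      b.β '' ({y | c ≤ b.ρ y} ×ˢ (Icc (0 : ℝ) 1 ×ˢ Icc (0 : ℝ) 1)) := by
    apply Subset.antisymm
    · rintro _ ⟨⟨y, s, θ⟩, hy, rfl⟩
      refine ⟨(y, Int.fract s, Int.fract θ), ⟨hy, ⟨(Int.fract_nonneg s),
        (Int.fract_lt_one s).le⟩, ⟨(Int.fract_nonneg θ), (Int.fract_lt_one θ).le⟩⟩, ?_⟩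
      rw [b.β_eq]
      exact ⟨rfl, ⟨⌊s⌋, (Int.fract_add_floor s).symm⟩, ⟨⌊θ⌋, (Int.fract_add_floor θ).symm⟩⟩
    · rintro _ ⟨⟨y, s, θ⟩, ⟨hy, -⟩, rfl⟩
      exact ⟨(y, s, θ), hy, rfl⟩
  rw [h2]
  exact ((h1.prod (isCompact_Icc.prod isCompact_Icc)).image b.β_cont).isClosed

end Base

theorem shift (b : Base X Y B) {M : Type} [MetricSpace M] (e : M) (h : Coh_Stmt) :
    Shift_Stmt b M e := by
  intro lam lam' C p q hlam' hle hlam hq hpq h1 h2
  obtain ⟨v, j, hvc, hjc, hvb, hv1, hvp, hj1, hz, hj0, hcoh⟩ := h lam lam' p q hlam' hle hlam hq hpq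
  have hlam0 : 0 < lam := hlam'.trans_le hle
  have hq0 : (0 : ℝ) < q := by exact_mod_cast hq
  set α : ℝ := (p : ℝ) / q with hα
  -- periodicity
  have hvk : ∀ r θ (k : ℤ), v r (θ + k) = v r θ := fun r θ k => shift_per (hv1 r) θ k
  have hjk : ∀ r θ (k : ℤ), j r (θ + k) = j r θ := fun r θ k => shift_per (hj1 r) θ k
  -- the cohomological equation at the arrival point
  have hcoh' : ∀ r θ, D lam' r θ + ((j r θ : ℝ) : T) =
      D lam r θ + ((j r (θ - α) : ℝ) : T) + ((v r θ : ℝ) : T) := by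
    intro r θ
    have h3 := hcoh r (θ - α)
    have h4 := hvp r (θ - α)
    rw [sub_add_cancel] at h3 h4
    rw [h3, AddCircle.coe_add, h4, add_assoc]
  -- the shift
  let g : Y → ℝ → ℝ → ℝ := fun y s θ => j (b.ρ y) (θ - α * s) + s * v (b.ρ y) (θ - α * s)
  have hg : ∀ y s θ (k : ℤ), g y s (θ + k) = g y s θ := by
    intro y s θ k
    show j (b.ρ y) (θ + k - α * s) + s * v (b.ρ y) (θ + k - α * s) = _
    rw [add_sub_right_comm, hvk, hjk]
  let J : B → T := b.shiftJ g
  have hJ : ∀ {s : ℝ}, 0 ≤ s → s < 1 → ∀ y θ, J (b.β (y, s, θ)) =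
      ((j (b.ρ y) (θ - α * s) : ℝ) : T) + ((s * v (b.ρ y) (θ - α * s) : ℝ) : T) := by
    intro s hs hs' y θ
    rw [← AddCircle.coe_add]
    exact b.shiftJ_β hg hs hs' y θ
  have hJoff : ∀ z, z ∉ range b.β → J z = 0 := fun z hz => b.shiftJ_off g hz
  have hJlow : ∀ z, z ∉ b.β '' {q | lam' ≤ b.ρ q.1} → J z = 0 := by
    intro z hzz
    by_cases hr : z ∈ range b.β
    · obtain ⟨y, s, θ, hs, hs', -, rfl⟩ := b.exists_rep hr
      have h3 : b.ρ y ≤ lam' := by
        by_contra hcon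
        exact hzz ⟨(y, s, θ), (not_le.1 hcon).le, rfl⟩
      rw [hJ hs hs', (hz _ _ h3).1, (hz _ _ h3).2]
      simp
    · exact hJoff z hr
  have hcr0 : |cr 0| ≤ 1 / (8 * (q : ℝ)) := by
    have : cr 0 = 0 := (cr_eq_zero_iff 0).2 ⟨0, by simp⟩
    rw [this, abs_zero]
    positivity
  have hJE : ∀ y, J (b.β (y, 0, 0)) = 0 := by
    intro y
    rw [hJ le_rfl one_pos, mul_zero, sub_zero, hj0 _ _ hcr0]
    simp
  have hE : ∀ z υ, (z, υ + J z) ∈ b.E ↔ (z, υ) ∈ b.E := by
    intro z υ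
    constructor
    · rintro ⟨y, h3, h4, h5⟩
      simp only at h4 h5
      rw [h4, hJE, add_zero] at h5
      exact ⟨y, h3, h4, h5⟩
    · rintro ⟨y, h3, h4, h5⟩
      simp only at h4 h5
      refine ⟨y, h3, h4, ?_⟩
      simp only
      rw [h4, hJE, add_zero]
      exact h5
  let h' : B × T → M := fun x => C.h (x.1, x.2 + J x.1)
  have hh' : ∀ z υ, h' (z, υ) = C.h (z, υ + J z) := fun z υ => rfl
  -- the cut map
  have hcut : ∀ x : Y × ℝ × ℝ × T, 0 ≤ x.2.1 ∧ x.2.1 ≤ 1 → b.cut lam' h' x =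
      b.cut lam C.h (x.1, x.2.1, x.2.2.1, x.2.2.2 + ((j (b.ρ x.1) (x.2.2.1 - α * x.2.1) +
        x.2.1 * v (b.ρ x.1) (x.2.2.1 - α * x.2.1) : ℝ) : T)) := by
    rintro ⟨y, s, θ, υ⟩ ⟨hs, hs'⟩
    simp only at hs hs' ⊢
    rcases lt_or_eq_of_le hs' with hs1 | hs1
    · unfold Base.cut
      simp only [if_pos hs1]
      rw [hh', hJ hs hs1, AddCircle.coe_add]
      simp
    · subst hs1
      unfold Base.cut
      simp only [lt_irrefl, if_false]
      rw [hh']
      have h3 : b.β (y, 1, θ) = b.β (y, 0, θ) := by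
        have := b.β_add_s y 0 θ 1
        simpa using this
      rw [h3, hJ le_rfl one_pos, mul_zero, sub_zero, zero_mul, mul_one, one_mul]
      have h4 := hcoh' (b.ρ y) θ
      have h5 : v (b.ρ y) (θ - α) = v (b.ρ y) θ := by
        have := hvp (b.ρ y) (θ - α)
        rw [sub_add_cancel] at this
        exact this.symm
      rw [AddCircle.coe_add, h5]
      have h6 : υ + D lam' (b.ρ y) θ + (((j (b.ρ y) θ : ℝ) : T) + ((0 : ℝ) : T)) =
          υ + (D lam' (b.ρ y) θ + ((j (b.ρ y) θ : ℝ) : T)) := by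
        simp only [AddCircle.coe_zero, add_zero, add_assoc]
      rw [h6, h4]
      congr 2
      abel
  let C' : Coord b lam' M e :=
    { h := h'
      surj := by
        intro m
        obtain ⟨⟨z, υ⟩, hm⟩ := C.surj m
        refine ⟨(z, υ - J z), ?_⟩
        rw [hh', sub_add_cancel]
        exact hm
      hE := by
        rintro ⟨z, υ⟩
        rw [hh', C.hE, hE]
      inj := by
        rintro ⟨z, υ⟩ ⟨z', υ'⟩ hxx
        rw [hh', hh'] at hxx
        rcases C.inj _ _ hxx with h3 | h3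
        · left
          have h4 : z = z' := congrArg Prod.fst h3
          subst h4
          have h5 : υ + J z = υ' + J z := congrArg Prod.snd h3
          rw [add_right_cancel h5]
        · right
          rw [hh']
          exact h3
      kcont := by
        have hc : Continuous fun x : Y × ℝ × ℝ × T => (x.1, x.2.1, x.2.2.1,
            x.2.2.2 + ((j (b.ρ x.1) (x.2.2.1 - α * x.2.1) +
              x.2.1 * v (b.ρ x.1) (x.2.2.1 - α * x.2.1) : ℝ) : T)) := by
          have hρ : Continuous fun x : Y × ℝ × ℝ × T => b.ρ x.1 := b.ρ_cont.comp continuous_fst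
          have h3 : Continuous fun x : Y × ℝ × ℝ × T =>
              j (b.ρ x.1) (x.2.2.1 - α * x.2.1) :=
            hjc.comp (hρ.prodMk (by fun_prop :
              Continuous fun x : Y × ℝ × ℝ × T => x.2.2.1 - α * x.2.1))
          have h4 : Continuous fun x : Y × ℝ × ℝ × T =>
              v (b.ρ x.1) (x.2.2.1 - α * x.2.1) :=
            hvc.comp (hρ.prodMk (by fun_prop :
              Continuous fun x : Y × ℝ × ℝ × T => x.2.2.1 - α * x.2.1))
          have h5 : Continuous fun x : Y × ℝ × ℝ × T => ((j (b.ρ x.1) (x.2.2.1 - α * x.2.1) +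
              x.2.1 * v (b.ρ x.1) (x.2.2.1 - α * x.2.1) : ℝ) : T) :=
            (AddCircle.continuous_mk' 1).comp
              (h3.add ((by fun_prop : Continuous fun x : Y × ℝ × ℝ × T => x.2.1).mul h4))
          exact continuous_fst.prodMk ((by fun_prop : Continuous fun x : Y × ℝ × ℝ × T =>
            x.2.1).prodMk ((by fun_prop : Continuous fun x : Y × ℝ × ℝ × T =>
            x.2.2.1).prodMk ((by fun_prop : Continuous fun x : Y × ℝ × ℝ × T =>
            x.2.2.2).add h5)))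
        have h3 := C.kcont.comp hc.continuousOn
          (s := {x : Y × ℝ × ℝ × T | 0 ≤ x.2.1 ∧ x.2.1 ≤ 1}) (fun x hx => hx)
        exact h3.congr fun x hx => hcut x hx
      ocont := by
        intro z υ hzz
        have h3 : z ∉ b.β '' {q | lam' ≤ b.ρ q.1} := by
          rintro ⟨q', hq', rfl⟩
          exact hzz ⟨q', hlam'.le.trans hq', rfl⟩
        have h4 : ∀ᶠ x : B × T in 𝓝 (z, υ), x.1 ∉ b.β '' {q | lam' ≤ b.ρ q.1} := by
          have h5 : IsOpen (b.β '' {q | lam' ≤ b.ρ q.1})ᶜ :=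
            (b.shift_closed (by linarith)).isOpen_compl
          have h6 : IsOpen {x : B × T | x.1 ∈ (b.β '' {q | lam' ≤ b.ρ q.1})ᶜ} :=
            h5.preimage continuous_fst
          exact h6.mem_nhds h3
        refine (C.ocont z υ hzz).congr (h4.mono fun x hx => ?_)
        show C.h x = C.h (x.1, x.2 + J x.1)
        rw [hJlow x.1 hx, add_zero] }
  have hC' : ∀ z υ, C'.h (z, υ) = C.h (z, υ + J z) := fun z υ => rfl
  -- the first relation
  have hT1 : ∀ y θ σ υ, -1 ≤ σ → σ < 1 → C'.h (b.ta lam' α y θ σ υ) =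
      C.h (b.ta lam α y θ σ (υ + ((j (b.ρ y) θ + σ * v (b.ρ y) θ : ℝ) : T))) := by
    intro y θ σ υ hσ hσ'
    rcases lt_or_ge σ 0 with h3 | h3
    · rw [b.ta_of_neg lam' α y θ h3, b.ta_of_neg lam α y θ h3, hC']
      have h4 : b.β (y, σ, θ + α * σ) = b.β (y, σ + 1, θ + α * σ) := by
        have := b.β_add_s y σ (θ + α * σ) 1
        simpa using this.symm
      rw [h4, hJ (by linarith) (by linarith)]
      have h5 : θ + α * σ - α * (σ + 1) = θ - α := by ring
      have h6 : v (b.ρ y) (θ - α) = v (b.ρ y) θ := by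
        have := hvp (b.ρ y) (θ - α)
        rw [sub_add_cancel] at this
        exact this.symm
      rw [h5, h6]
      have h7 := hcoh' (b.ρ y) θ
      have h8 : ((j (b.ρ y) (θ - α) : ℝ) : T) = D lam' (b.ρ y) θ + ((j (b.ρ y) θ : ℝ) : T) -
          D lam (b.ρ y) θ - ((v (b.ρ y) θ : ℝ) : T) := by
        rw [h7]
        abel
      rw [h8]
      congr 2
      rw [add_mul, one_mul, AddCircle.coe_add, AddCircle.coe_add]
      abel
    · rw [b.ta_of_nonneg lam' α y θ h3, b.ta_of_nonneg lam α y θ h3, hC', hJ h3 hσ',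
        add_sub_cancel_right, AddCircle.coe_add]
  have hq4 : 1 / (8 * (q : ℝ)) ≤ 1 / 20 := by
    have h3 : 4 ≤ q := by
      by_contra hcon
      have h4 : q = 1 ∨ q = 2 ∨ q = 3 := by omega
      rw [lt_div_iff₀ hq0] at h1
      rw [div_lt_iff₀ hq0] at h2
      rcases h4 with rfl | rfl | rfl
      · push_cast at h1 h2
        have h5 : (0 : ℝ) < p := by linarith
        have h6 : (p : ℝ) < 1 := by linarith
        have h7 : 0 < p := by exact_mod_cast h5
        have h8 : p < 1 := by exact_mod_cast h6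
        omega
      · push_cast at h1 h2
        have h5 : (0 : ℝ) < p := by linarith
        have h6 : (p : ℝ) < 1 := by linarith
        have h7 : 0 < p := by exact_mod_cast h5
        have h8 : p < 1 := by exact_mod_cast h6
        omega
      · push_cast at h1 h2
        have h5 : (0 : ℝ) < p := by linarith
        have h6 : (p : ℝ) < 1 := by linarith
        have h7 : 0 < p := by exact_mod_cast h5
        have h8 : p < 1 := by exact_mod_cast h6
        omega
    have h4 : (4 : ℝ) ≤ q := by exact_mod_cast h3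
    exact one_div_le_one_div_of_le (by norm_num) (by linarith)
  refine ⟨C', J, v, j, hvb, hC', hJoff, hT1, ?_, ?_, ?_⟩
  · -- near the disc
    intro y θ σ υ hθ hσ hσ'
    have hθ' : |cr θ| ≤ 1 / 20 := hθ.trans hq4
    have hj00 : j (b.ρ y) θ = 0 := hj0 _ _ hθ
    rcases lt_or_ge σ (-1) with h3 | h3
    · -- left
      rw [b.ta_of_neg lam' α y θ (by linarith), b.ta_of_neg lam α y θ (by linarith), hC']
      have h4 : b.β (y, σ, θ + α * σ) = b.β (y, σ + 2, θ + α * σ) := by
        have := b.β_add_s y σ (θ + α * σ) 2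
        simpa using this.symm
      rw [h4, hJ (by linarith) (by linarith)]
      have h5 : θ + α * σ - α * (σ + 2) = θ - α - α := by ring
      have h6 : v (b.ρ y) (θ - α - α) = v (b.ρ y) θ := by
        have h61 := hvp (b.ρ y) (θ - α - α)
        have h62 := hvp (b.ρ y) (θ - α)
        rw [sub_add_cancel] at h61 h62
        rw [← h61, ← h62]
      have h6' : v (b.ρ y) (θ - α) = v (b.ρ y) θ := by
        have h62 := hvp (b.ρ y) (θ - α)
        rw [sub_add_cancel] at h62
        exact h62.symm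
      rw [h5, h6]
      have hD : ∀ l : ℝ, 0 < l → l ≤ 1 / 20 → D l (b.ρ y) (θ - α) = 0 := by
        intro l hl hl'
        have := Base.D_near hl hl' h1 h2 hθ' (k := -1) (by norm_num) (by norm_num) (by norm_num)
          (b.ρ y)
        push_cast at this
        rw [← this]
        congr 1
        ring
      have h7 := hcoh' (b.ρ y) θ
      have h8 := hcoh' (b.ρ y) (θ - α)
      rw [hD lam' hlam' (hle.trans hlam), hD lam hlam0 hlam, zero_add, zero_add, h6'] at h8
      rw [hj00, AddCircle.coe_zero, add_zero, h8] at h7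
      have h9 : ((j (b.ρ y) (θ - α - α) : ℝ) : T) = D lam' (b.ρ y) θ - D lam (b.ρ y) θ -
          ((v (b.ρ y) θ : ℝ) : T) - ((v (b.ρ y) θ : ℝ) : T) := by
        rw [h7]
        abel
      rw [h9]
      congr 2
      have h10 : (((σ + 2) * v (b.ρ y) θ : ℝ) : T) = ((σ * v (b.ρ y) θ : ℝ) : T) +
          ((v (b.ρ y) θ : ℝ) : T) + ((v (b.ρ y) θ : ℝ) : T) := by
        rw [← AddCircle.coe_add, ← AddCircle.coe_add]
        congr 1
        ring
      rw [h10]
      abel
    rcases lt_or_ge σ 1 with h4 | h4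
    · rw [hT1 y θ σ υ h3 h4, hj00, zero_add]
    · -- right
      rw [b.ta_of_nonneg lam' α y θ (by linarith), b.ta_of_nonneg lam α y θ (by linarith), hC']
      have h5 : b.β (y, σ, θ + α * σ) = b.β (y, σ - 1, θ + α * σ) := by
        have := b.β_add_s y (σ - 1) (θ + α * σ) 1
        simpa using this
      rw [h5, hJ (by linarith) (by linarith)]
      have h6 : θ + α * σ - α * (σ - 1) = θ + α := by ring
      rw [h6, hvp]
      have hD : ∀ l : ℝ, 0 < l → l ≤ 1 / 20 → D l (b.ρ y) (θ + α) = 0 := by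
        intro l hl hl'
        have := Base.D_near hl hl' h1 h2 hθ' (k := 1) (by norm_num) (by norm_num) (by norm_num)
          (b.ρ y)
        push_cast at this
        rw [← this]
        congr 1
        ring
      have h7 := hcoh (b.ρ y) θ
      rw [hD lam' hlam' (hle.trans hlam), hD lam hlam0 hlam, zero_add, zero_add, hj00,
        zero_add] at h7
      rw [h7]
      congr 2
      rw [← AddCircle.coe_add]
      congr 2
      ring
  · -- forward
    intro y s θ υ hs hs'
    rw [b.L_β lam' α hs hs', hC', hJ hs hs', hJ hs hs']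
    have h3 : θ + α - α * s = θ + α * (1 - s) := by ring
    have h4 : θ - α * s = θ + α * (1 - s) - α := by ring
    have h5 : v (b.ρ y) (θ + α * (1 - s) - α) = v (b.ρ y) (θ + α * (1 - s)) := by
      have := hvp (b.ρ y) (θ + α * (1 - s) - α)
      rw [sub_add_cancel] at this
      exact this.symm
    rw [h3, h4, h5]
    have h6 := hcoh' (b.ρ y) (θ + α * (1 - s))
    have h7 : ((j (b.ρ y) (θ + α * (1 - s) - α) : ℝ) : T) =
        D lam' (b.ρ y) (θ + α * (1 - s)) + ((j (b.ρ y) (θ + α * (1 - s)) : ℝ) : T) -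
          D lam (b.ρ y) (θ + α * (1 - s)) - ((v (b.ρ y) (θ + α * (1 - s)) : ℝ) : T) := by
      rw [h6]
      abel
    rw [h7]
    congr 2
    abel
  · -- backward
    intro y s θ υ hs hs'
    rw [b.L_symm_β lam' α hs hs', hC', hJ hs hs', hJ hs hs']
    have h3 : θ - α - α * s = θ - α * s - α := by ring
    have h5 : v (b.ρ y) (θ - α * s - α) = v (b.ρ y) (θ - α * s) := by
      have := hvp (b.ρ y) (θ - α * s - α)
      rw [sub_add_cancel] at this
      exact this.symm
    rw [h3, h5]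
    have h6 := hcoh' (b.ρ y) (θ - α * s)
    have h7 : ((j (b.ρ y) (θ - α * s - α) : ℝ) : T) =
        D lam' (b.ρ y) (θ - α * s) + ((j (b.ρ y) (θ - α * s) : ℝ) : T) -
          D lam (b.ρ y) (θ - α * s) - ((v (b.ρ y) (θ - α * s) : ℝ) : T) := by
      rw [h6]
      abel
    rw [h7]
    congr 2
    abel

end Pool.Agent.EvenHomeo
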